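import Pool.Agent.FUR.Stmts

/-!
Squad FUR, row GRS: existence of a good subcube (double counting)
-/

set_option autoImplicit false

namespace Pool.Agent.FUR.H76

open Finset Pool.Agent.FUR

variable {N : ℕ}

/-- the number of `k`-sets containing a given `r`-set -/
theorem card_sup (k r : ℕ) (R : Finset (Fin N)) (hR : R.card = r) :
    ((powersetCard k (univ : Finset (Fin N))).filter (fun K => R ⊆ K)).card ≤
      (N - r).choose (k - r) := by
  classical
  have h1 : (powersetCard (k - r) (univ \ R : Finset (Fin N))).card = (N - r).choose (k - r) := by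
    rw [card_powersetCard, card_univ_diff, Fintype.card_fin, hR]
  rw [← h1]
  refine card_le_card_of_injOn (fun K => K \ R) ?_ ?_
  · intro K hK
    obtain ⟨hK1, hK2⟩ := mem_filter.mp (mem_coe.mp hK)
    obtain ⟨-, hK3⟩ := mem_powersetCard.mp hK1
    rw [mem_coe, mem_powersetCard]
    refine ⟨sdiff_subset_sdiff (subset_univ _) (Subset.refl _), ?_⟩
    rw [card_sdiff_of_subset hK2, hK3, hR]
  · intro K hK K' hK' h
    have hK2 := (mem_filter.mp (mem_coe.mp hK)).2
    have hK2' := (mem_filter.mp (mem_coe.mp hK')).2
    have h' : K \ R = K' \ R := h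
    rw [← sdiff_union_of_subset hK2, ← sdiff_union_of_subset hK2', h']

theorem sum_choose_le (k r : ℕ) (S : Finset (Fin N)) :
    ∑ K ∈ powersetCard k (univ : Finset (Fin N)), ((S ∩ K).card).choose r ≤
      S.card.choose r * (N - r).choose (k - r) := by
  classical
  have h1 : ∀ K : Finset (Fin N), ((S ∩ K).card).choose r =
      ∑ R ∈ powersetCard r S, if R ⊆ K then 1 else 0 := by
    intro K
    rw [← card_powersetCard, sum_ite, sum_const_zero, add_zero, sum_const, smul_eq_mul, mul_one]
    congr 1
    ext R
    rw [mem_powersetCard, mem_filter, mem_powersetCard, subset_inter_iff]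
    tauto
  rw [sum_congr rfl fun K _ => h1 K, sum_comm]
  calc ∑ R ∈ powersetCard r S, ∑ K ∈ powersetCard k (univ : Finset (Fin N)),
        (if R ⊆ K then 1 else 0)
      ≤ ∑ R ∈ powersetCard r S, (N - r).choose (k - r) := by
        refine sum_le_sum fun R hR => ?_
        rw [sum_ite, sum_const_zero, add_zero, sum_const, smul_eq_mul, mul_one]
        exact card_sup k r R (mem_powersetCard.mp hR).2
    _ = S.card.choose r * (N - r).choose (k - r) := by
        rw [sum_const, card_powersetCard, smul_eq_mul]

/-- the number of assignments that agree with `z` outside of `K` -/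
theorem card_agree (K : Finset (Fin N)) (z : Fin N → Bool) :
    ((univ : Finset (Fin N → Bool)).filter (fun ρ => ∀ v, v ∉ K → ρ v = z v)).card ≤
      2 ^ K.card := by
  classical
  have h1 : Fintype.card (K → Bool) = 2 ^ K.card := by simp
  rw [← h1, ← card_univ]
  refine card_le_card_of_injOn (fun ρ => fun v : K => ρ v) (fun _ _ => mem_coe.mpr (mem_univ _)) ?_
  intro ρ hρ ρ' hρ' h
  have a1 := (mem_filter.mp (mem_coe.mp hρ)).2
  have a2 := (mem_filter.mp (mem_coe.mp hρ')).2
  funext v
  by_cases hv : v ∈ K
  · exact congrFun h ⟨v, hv⟩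
  · rw [a1 v hv, a2 v hv]

theorem grs : GRSStmt := by
  classical
  intro N k r M F hkN hrk hlt
  by_contra hcon
  push Not at hcon
  -- the bad points
  obtain ⟨bad, hbad⟩ : ∃ bad : Fin M → Finset (Fin N) → Finset (Fin N → Bool), bad = fun j K =>
    univ.filter fun z => r ≤ (Sn (F j) z ∩ K).card := ⟨_, rfl⟩
  have hA : ∀ K : Finset (Fin N), K.card = k → 2 ^ N ≤ 2 ^ k * ∑ j, (bad j K).card := by
    intro K hK
    have h1 : (univ : Finset (Fin N → Bool)) ⊆ (univ : Finset (Fin M)).biUnion fun j =>
        (bad j K).biUnion fun z => univ.filter fun ρ => ∀ v, v ∉ K → ρ v = z v := by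
      intro ρ _
      obtain ⟨j, x, hjx⟩ := hcon K ρ hK
      rw [mem_biUnion]
      refine ⟨j, mem_univ _, ?_⟩
      rw [mem_biUnion]
      refine ⟨ov K ρ x, ?_, ?_⟩
      · rw [hbad]
        exact mem_filter.mpr ⟨mem_univ _, hjx⟩
      · refine mem_filter.mpr ⟨mem_univ _, fun v hv => ?_⟩
        unfold ov
        rw [if_neg hv]
    have h2 := card_le_card h1
    have h3 : (univ : Finset (Fin N → Bool)).card = 2 ^ N := by simp
    rw [h3] at h2
    refine h2.trans ?_
    refine card_biUnion_le.trans ?_
    rw [mul_sum]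
    refine sum_le_sum fun j _ => ?_
    refine card_biUnion_le.trans ?_
    calc ∑ z ∈ bad j K, ((univ : Finset (Fin N → Bool)).filter
          (fun ρ => ∀ v, v ∉ K → ρ v = z v)).card
        ≤ ∑ z ∈ bad j K, 2 ^ k := sum_le_sum fun z _ => by rw [← hK]; exact card_agree K z
      _ = 2 ^ k * (bad j K).card := by rw [sum_const, smul_eq_mul, mul_comm]
  have hB : N.choose k * 2 ^ N ≤ 2 ^ k * ((N - r).choose (k - r) * ∑ j, Mq r (F j)) := by
    calc N.choose k * 2 ^ N = ∑ K ∈ powersetCard k (univ : Finset (Fin N)), 2 ^ N := by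
          rw [sum_const, card_powersetCard, card_univ, Fintype.card_fin, smul_eq_mul]
      _ ≤ ∑ K ∈ powersetCard k (univ : Finset (Fin N)), 2 ^ k * ∑ j, (bad j K).card :=
          sum_le_sum fun K hK => hA K (mem_powersetCard.mp hK).2
      _ = 2 ^ k * ∑ j, ∑ K ∈ powersetCard k (univ : Finset (Fin N)), (bad j K).card := by
          rw [← mul_sum, sum_comm]
      _ ≤ 2 ^ k * ∑ j, (N - r).choose (k - r) * Mq r (F j) := by
          refine Nat.mul_le_mul_left _ (sum_le_sum fun j _ => ?_)
          calc ∑ K ∈ powersetCard k (univ : Finset (Fin N)), (bad j K).card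
              = ∑ K ∈ powersetCard k (univ : Finset (Fin N)), ∑ z : Fin N → Bool,
                (if r ≤ (Sn (F j) z ∩ K).card then 1 else 0) := by
                refine sum_congr rfl fun K _ => ?_
                rw [hbad, card_filter]
            _ = ∑ z : Fin N → Bool, ∑ K ∈ powersetCard k (univ : Finset (Fin N)),
                (if r ≤ (Sn (F j) z ∩ K).card then 1 else 0) := sum_comm
            _ ≤ ∑ z : Fin N → Bool, ∑ K ∈ powersetCard k (univ : Finset (Fin N)),
                ((Sn (F j) z ∩ K).card).choose r := by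
                refine sum_le_sum fun z _ => sum_le_sum fun K _ => ?_
                by_cases h : r ≤ (Sn (F j) z ∩ K).card
                · rw [if_pos h]
                  exact Nat.choose_pos h
                · rw [if_neg h]
                  exact Nat.zero_le _
            _ ≤ ∑ z : Fin N → Bool, ((Sn (F j) z).card.choose r * (N - r).choose (k - r)) :=
                sum_le_sum fun z _ => sum_choose_le k r _
            _ = (N - r).choose (k - r) * Mq r (F j) := by
                unfold Mq
                rw [← sum_mul, mul_comm]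
      _ = 2 ^ k * ((N - r).choose (k - r) * ∑ j, Mq r (F j)) := by rw [← mul_sum]
  have hpos : 0 < (N - r).choose (k - r) := Nat.choose_pos (by omega)
  have hC : N.choose k * k.choose r = N.choose r * (N - r).choose (k - r) :=
    Nat.choose_mul hrk
  have h1 := Nat.mul_lt_mul_of_pos_right hlt hpos
  have h2 := Nat.mul_le_mul_right (k.choose r) hB
  have h3 : 2 ^ N * N.choose r * (N - r).choose (k - r) = N.choose k * 2 ^ N * k.choose r := by
    rw [mul_assoc, ← hC]; ring
  rw [h3] at h1
  have h4 : 2 ^ k * k.choose r * (∑ j, Mq r (F j)) * (N - r).choose (k - r) =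
      2 ^ k * ((N - r).choose (k - r) * ∑ j, Mq r (F j)) * k.choose r := by ring
  rw [h4] at h1
  exact absurd (lt_of_lt_of_le h1 h2) (lt_irrefl _)

end Pool.Agent.FUR.H76
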